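import Mathlib
import Pool.Agent.Helper74.PD3.Gen

/-!
A general framework: a free resolution of the trivial module over an integral group ring given by
matrices, the associated projective resolution in `Rep ℤ G`, and the resulting computation of
group cohomology, in particular with coefficients in the group ring.
-/

namespace Pool.Agent.Helper74.Frame

open MonoidAlgebra CategoryTheory Pool.Agent.Helper74.PD3

variable {G : Type} [Group G]

/-- The augmentation (sum of coefficients). -/
noncomputable def aug : MonoidAlgebra ℤ G →+ ℤ :=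
  (Finsupp.liftAddHom (fun _ => AddMonoidHom.id ℤ)).comp
    (coeffAddEquiv : MonoidAlgebra ℤ G ≃+ (G →₀ ℤ)).toAddMonoidHom

omit [Group G] in
theorem aug_single (g : G) (r : ℤ) : aug (MonoidAlgebra.single g r) = r := by
  simp [aug]

theorem aug_single_mul (g : G) (u : MonoidAlgebra ℤ G) :
    aug (MonoidAlgebra.single g 1 * u) = aug u := by
  induction u using MonoidAlgebra.induction_linear with
  | zero => simp
  | add a b ha hb => rw [mul_add, map_add, map_add, ha, hb]
  | single h r => rw [MonoidAlgebra.single_mul_single, aug_single, aug_single, one_mul]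

variable {m : ℕ → ℕ}

/-- The augmentation of the free module in degree zero with weights `e`. -/
noncomputable def augE (e : Fin (m 0) → ℤ) (u : Fin (m 0) → MonoidAlgebra ℤ G) : ℤ :=
  ∑ i, aug (u i) * e i

/-- A family of matrices gives a free resolution of `ℤ`. -/
structure IsRes (D : ∀ i : ℕ, Matrix (Fin (m (i + 1))) (Fin (m i)) (MonoidAlgebra ℤ G))
    (e : Fin (m 0) → ℤ) : Prop where
  sq : ∀ (n : ℕ) (u : Fin (m (n + 2)) → MonoidAlgebra ℤ G),
    Matrix.vecMul (Matrix.vecMul u (D (n + 1))) (D n) = 0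
  sq0 : ∀ u : Fin (m 1) → MonoidAlgebra ℤ G, augE e (Matrix.vecMul u (D 0)) = 0
  ex0 : ∀ u : Fin (m 0) → MonoidAlgebra ℤ G, augE e u = 0 → ∃ v, Matrix.vecMul v (D 0) = u
  exs : ∀ (n : ℕ) (u : Fin (m (n + 1)) → MonoidAlgebra ℤ G), Matrix.vecMul u (D n) = 0 →
    ∃ v, Matrix.vecMul v (D (n + 1)) = u
  surj : ∀ r : ℤ, ∃ u : Fin (m 0) → MonoidAlgebra ℤ G, augE e u = r

theorem free_apply {α : Type*} (g : G) (w : α →₀ MonoidAlgebra ℤ G) (j : α) :
    (Representation.free ℤ G α g w) j = MonoidAlgebra.single g 1 * w j := by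
  classical
  induction w using Finsupp.induction_linear with
  | zero => simp
  | add a b ha hb => rw [map_add, Finsupp.add_apply, ha, hb, Finsupp.add_apply, mul_add]
  | single i v =>
    rw [Representation.finsupp_single, Finsupp.single_apply, Finsupp.single_apply]
    split_ifs with h
    · induction v using MonoidAlgebra.induction_linear with
      | zero => simp
      | add a b ha hb => rw [map_add, ha, hb, mul_add]
      | single h r => simp
    · rw [mul_zero]

theorem single_eq_intCast_mul (g : G) (r : ℤ) :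
    (MonoidAlgebra.single g r : MonoidAlgebra ℤ G) =
      (r : MonoidAlgebra ℤ G) * MonoidAlgebra.single g 1 := by
  rw [← zsmul_eq_mul]
  simp

section

variable (D : ∀ i : ℕ, Matrix (Fin (m (i + 1))) (Fin (m i)) (MonoidAlgebra ℤ G))

/-- The differentials in `Rep ℤ G`. -/
noncomputable def dd (n : ℕ) : Rep.free ℤ G (Fin (m (n + 1))) ⟶ Rep.free ℤ G (Fin (m n)) :=
  Rep.freeLift ℤ G (A := Rep.free ℤ G (Fin (m n))) (fun i => Finsupp.equivFunOnFinite.symm (D n i))

theorem dd_apply (n : ℕ) (u : Fin (m (n + 1)) →₀ MonoidAlgebra ℤ G) :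
    (dd D n).hom u = Finsupp.equivFunOnFinite.symm (Matrix.vecMul (⇑u) (D n)) := by
  induction u using Finsupp.induction_linear with
  | zero => 
    rw [map_zero]
    ext1 j
    simp
  | add a b ha hb =>
    rw [map_add, ha, hb]
    ext1 j
    simp [Matrix.add_vecMul]
  | single i v =>
    induction v using MonoidAlgebra.induction_linear with
    | zero =>
      rw [Finsupp.single_zero, map_zero]
      ext1 j
      simp
    | add a b ha hb =>
      rw [Finsupp.single_add, map_add, ha, hb]
      ext1 j
      simp [Matrix.add_vecMul]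
    | single g r =>
      ext1 j
      simp only [dd, Rep.hom_ofHom, Representation.freeLift_single_single, Finsupp.smul_apply,
        free_apply, Finsupp.equivFunOnFinite_symm_apply_apply, Matrix.vecMul, dotProduct]
      rw [Finset.sum_eq_single i]
      · rw [Finsupp.single_eq_same, single_eq_intCast_mul g r, mul_assoc, zsmul_eq_mul]
      · intro b _ hb
        rw [Finsupp.single_eq_of_ne hb, zero_mul]
      · intro h
        exact absurd (Finset.mem_univ _) h

/-- The augmentation of the complex. -/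
noncomputable def ee (e : Fin (m 0) → ℤ) : Rep.free ℤ G (Fin (m 0)) ⟶ Rep.trivial ℤ G ℤ :=
  Rep.freeLift ℤ G (A := Rep.trivial ℤ G ℤ) e

theorem ee_apply (e : Fin (m 0) → ℤ) (u : Fin (m 0) →₀ MonoidAlgebra ℤ G) :
    (ee e).hom u = augE e (⇑u) := by
  induction u using Finsupp.induction_linear with
  | zero => rw [map_zero]; simp [augE]
  | add a b ha hb =>
    rw [map_add, ha, hb]
    simp [augE, add_mul, Finset.sum_add_distrib]
  | single i v =>
    have h1 : augE e (⇑(Finsupp.single i v)) = aug v * e i := by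
      unfold augE
      rw [Finset.sum_eq_single i]
      · rw [Finsupp.single_eq_same]
      · intro b _ hb
        rw [Finsupp.single_eq_of_ne hb, map_zero, zero_mul]
      · intro h
        exact absurd (Finset.mem_univ _) h
    rw [h1]
    induction v using MonoidAlgebra.induction_linear with
    | zero => rw [Finsupp.single_zero, map_zero, map_zero, zero_mul]
    | add a b ha hb =>
      have h2 : ∀ c : MonoidAlgebra ℤ G, augE e (⇑(Finsupp.single i c)) = aug c * e i := by
        intro c
        unfold augE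
        rw [Finset.sum_eq_single i]
        · rw [Finsupp.single_eq_same]
        · intro b _ hb
          rw [Finsupp.single_eq_of_ne hb, map_zero, zero_mul]
        · intro h
          exact absurd (Finset.mem_univ _) h
      rw [Finsupp.single_add, map_add, ha (h2 a), hb (h2 b), map_add, add_mul]
    | single g r =>
      rw [aug_single]
      simp only [ee, Rep.hom_ofHom, Representation.freeLift_single_single]
      simp

variable {D} {e : Fin (m 0) → ℤ}

theorem dd_sq (h : IsRes D e) (n : ℕ) : dd D (n + 1) ≫ dd D n = 0 := by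
  apply Rep.hom_ext
  refine DFunLike.ext _ _ fun u => ?_
  change (dd D n).hom ((dd D (n + 1)).hom u) = 0
  rw [dd_apply, dd_apply]
  apply Finsupp.equivFunOnFinite.injective
  exact h.sq n u

/-- The chain complex. -/
noncomputable def CC (h : IsRes D e) : ChainComplex (Rep ℤ G) ℕ :=
  ChainComplex.of (fun n => Rep.free ℤ G (Fin (m n))) (dd D) (dd_sq h)

theorem CC_d (h : IsRes D e) (n : ℕ) : (CC h).d (n + 1) n = dd D n :=
  ChainComplex.of_d (fun n => Rep.free ℤ G (Fin (m n))) (dd D) n

theorem CC_ee (h : IsRes D e) : (CC h).d 1 0 ≫ ee e = 0 := by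
  have h' : (CC h).d 1 0 = dd D 0 := CC_d h 0
  rw [h']
  have key : ∀ u : Fin (m 1) →₀ MonoidAlgebra ℤ G, (ee e).hom ((dd D 0).hom u) = 0 := by
    intro u
    rw [dd_apply, ee_apply]
    exact h.sq0 (⇑u)
  apply Rep.hom_ext
  exact DFunLike.ext _ _ key

theorem key0 (h : IsRes D e) (u : Fin (m 0) →₀ MonoidAlgebra ℤ G) (hu : (ee e).hom u = 0) :
    ∃ v : Fin (m 1) →₀ MonoidAlgebra ℤ G, ((CC h).d 1 0).hom v = u := by
  rw [ee_apply] at hu
  obtain ⟨v, hv⟩ := h.ex0 u hu
  refine ⟨Finsupp.equivFunOnFinite.symm v, ?_⟩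
  have h' : (CC h).d 1 0 = dd D 0 := CC_d h 0
  rw [h']
  refine (dd_apply D 0 _).trans ?_
  apply Finsupp.equivFunOnFinite.injective
  exact hv

theorem key_succ (h : IsRes D e) (n : ℕ) (u : Fin (m (n + 1)) →₀ MonoidAlgebra ℤ G)
    (hu : ((CC h).d (n + 1) n).hom u = 0) :
    ∃ v : Fin (m (n + 2)) →₀ MonoidAlgebra ℤ G, ((CC h).d (n + 2) (n + 1)).hom v = u := by
  rw [CC_d] at hu
  have hu' := congrArg Finsupp.equivFunOnFinite ((dd_apply D n u).symm.trans hu)
  obtain ⟨v, hv⟩ := h.exs n u hu'
  refine ⟨Finsupp.equivFunOnFinite.symm v, ?_⟩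
  rw [CC_d h (n + 1)]
  refine (dd_apply D (n + 1) _).trans ?_
  apply Finsupp.equivFunOnFinite.injective
  exact hv

theorem key_surj (h : IsRes D e) (r : ℤ) :
    ∃ u : Fin (m 0) →₀ MonoidAlgebra ℤ G, (ee e).hom u = r := by
  obtain ⟨u, hu⟩ := h.surj r
  refine ⟨Finsupp.equivFunOnFinite.symm u, ?_⟩
  rw [ee_apply]
  exact hu

/-- The projective resolution of the trivial module. -/
noncomputable def PP (h : IsRes D e) : ProjectiveResolution (Rep.trivial ℤ G ℤ) :=
  mkRes (CC h) (ee e) (CC_ee h)
    (fun n => inferInstanceAs <| Projective (Rep.free ℤ G (Fin (m n))))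
    (key0 h) (key_succ h) (key_surj h)

theorem PP_d (h : IsRes D e) (n : ℕ) : (PP h).complex.d (n + 1) n = dd D n := CC_d h n

end

/-- coordinates of a morphism out of a free representation -/
noncomputable def val {n : ℕ} (f : Rep.free ℤ G (Fin n) ⟶ Rep.leftRegular ℤ G) :
    Fin n → MonoidAlgebra ℤ G :=
  fun i => f.hom (Finsupp.single i (MonoidAlgebra.single 1 1))

theorem val_lift {n : ℕ} (w : Fin n → MonoidAlgebra ℤ G) :
    val (Rep.freeLift ℤ G (A := Rep.leftRegular ℤ G) w) = w := by
  funext i
  simp only [val, Rep.hom_ofHom, Representation.freeLift_single_single]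
  simp

theorem val_inj {n : ℕ} {f g : Rep.free ℤ G (Fin n) ⟶ Rep.leftRegular ℤ G}
    (h : val f = val g) : f = g :=
  Rep.free_ext ℤ G _ _ _ (fun i => congrFun h i)

theorem hom_apply {n : ℕ} (f : Rep.free ℤ G (Fin n) ⟶ Rep.leftRegular ℤ G)
    (u : Fin n →₀ MonoidAlgebra ℤ G) :
    (f.hom u : MonoidAlgebra ℤ G) = ∑ i, u i * val f i := by
  induction u using Finsupp.induction_linear with
  | zero => rw [map_zero]; simp
  | add a b ha hb =>
    rw [map_add, ha, hb, ← Finset.sum_add_distrib]
    refine Finset.sum_congr rfl fun i _ => ?_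
    rw [Finsupp.add_apply, add_mul]
  | single i v =>
    rw [Finset.sum_eq_single i]
    · rw [Finsupp.single_eq_same]
      induction v using MonoidAlgebra.induction_linear with
      | zero => rw [Finsupp.single_zero, map_zero, zero_mul]
      | add a b ha hb => rw [Finsupp.single_add, map_add, ha, hb, add_mul]
      | single g r =>
        have h1 : (Finsupp.single i (MonoidAlgebra.single g r) : Fin n →₀ MonoidAlgebra ℤ G) =
            r • (Representation.free ℤ G (Fin n) g
              (Finsupp.single i (MonoidAlgebra.single 1 1))) := by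
          rw [Representation.free_single_single, mul_one, Finsupp.smul_single,
            MonoidAlgebra.smul_single]
          simp
        rw [h1, map_zsmul]
        have h2 := Rep.hom_comm_apply f g (Finsupp.single i (MonoidAlgebra.single 1 1))
        refine (congrArg (r • ·) h2).trans ?_
        have h3 : ∀ z : MonoidAlgebra ℤ G, (Rep.leftRegular ℤ G).ρ g z =
            MonoidAlgebra.single g 1 * z := by
          intro z
          induction z using MonoidAlgebra.induction_linear with
          | zero => rw [mul_zero]; exact map_zero _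
          | add a b ha hb => rw [mul_add, ← ha, ← hb]; exact map_add _ _ _
          | single h s => simp
        simp only
        rw [h3, single_eq_intCast_mul g r, mul_assoc, ← zsmul_eq_mul]
        rfl
    · intro b _ hb
      rw [Finsupp.single_eq_of_ne hb, zero_mul]
    · intro h
      exact absurd (Finset.mem_univ _) h

variable {D : ∀ i : ℕ, Matrix (Fin (m (i + 1))) (Fin (m i)) (MonoidAlgebra ℤ G)}
  {e : Fin (m 0) → ℤ}

theorem val_dd {n : ℕ} (f : Rep.free ℤ G (Fin (m n)) ⟶ Rep.leftRegular ℤ G) :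
    val (dd D n ≫ f) = Matrix.mulVec (D n) (val f) := by
  funext i
  have h1 : val (dd D n ≫ f) i =
    f.hom ((dd D n).hom (Finsupp.single i (MonoidAlgebra.single 1 1))) := rfl
  rw [h1, hom_apply, dd_apply]
  simp only [Matrix.mulVec, dotProduct, Finsupp.equivFunOnFinite_symm_apply_apply]
  refine Finset.sum_congr rfl fun j _ => ?_
  congr 1
  simp only [Matrix.vecMul, dotProduct]
  rw [Finset.sum_eq_single i]
  · rw [Finsupp.single_eq_same]
    exact one_mul _
  · intro b _ hb
    rw [Finsupp.single_eq_of_ne hb, zero_mul]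
  · intro h
    exact absurd (Finset.mem_univ _) h

/-- Vanishing of cohomology in degrees where the resolution is zero. -/
theorem coh_vanish (h : IsRes D e) (n : ℕ) (hn : m (n + 1) = 0) (M : Rep ℤ G) :
    Subsingleton (groupCohomology M (n + 1)) := by
  refine subsingleton_succ (PP h) M n fun f _ => ⟨0, ?_⟩
  have : f = 0 := Rep.free_ext ℤ G _ _ _ (fun i => Fin.elim0 (hn ▸ i))
  rw [this]
  exact Limits.comp_zero

theorem coh_zero (h : IsRes D e)
    (h0 : ∀ w : Fin (m 0) → MonoidAlgebra ℤ G, Matrix.mulVec (D 0) w = 0 → w = 0) :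
    Subsingleton (groupCohomology (Rep.leftRegular ℤ G) 0) := by
  refine subsingleton_zero (PP h) _ fun f hf => ?_
  have hf' : dd D 0 ≫ f = 0 := by rw [← PP_d h]; exact hf
  have h1 : Matrix.mulVec (D 0) (val (n := m 0) f) = 0 := by
    refine (val_dd (n := 0) f).symm.trans ?_
    rw [hf']; rfl
  exact val_inj (n := m 0) (h0 _ h1)

theorem coh_succ (h : IsRes D e) (n : ℕ)
    (h0 : ∀ w : Fin (m (n + 1)) → MonoidAlgebra ℤ G, Matrix.mulVec (D (n + 1)) w = 0 →
      ∃ v, Matrix.mulVec (D n) v = w) :
    Subsingleton (groupCohomology (Rep.leftRegular ℤ G) (n + 1)) := by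
  refine subsingleton_succ (PP h) _ n fun f hf => ?_
  have hf' : dd D (n + 1) ≫ f = 0 := by rw [← PP_d h]; exact hf
  have h1 : Matrix.mulVec (D (n + 1)) (val (n := m (n + 1)) f) = 0 := by
    refine (val_dd (n := n + 1) f).symm.trans ?_
    rw [hf']; rfl
  obtain ⟨v, hv⟩ := h0 _ h1
  refine ⟨Rep.freeLift ℤ G (A := Rep.leftRegular ℤ G) v, ?_⟩
  apply val_inj (n := m (n + 1))
  have h2 : (PP h).complex.d (n + 1) n = dd D n := PP_d h n
  rw [h2]
  refine (val_dd (n := n) _).trans ?_
  rw [val_lift (n := m n)]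
  exact hv

theorem coh_top (h : IsRes D e) (n : ℕ) (hn : m (n + 2) = 0)
    (φ : (Fin (m (n + 1)) → MonoidAlgebra ℤ G) →+ ℤ) (hφ : Function.Surjective φ)
    (hker : ∀ w, φ w = 0 ↔ ∃ v, Matrix.mulVec (D n) v = w) :
    Nonempty (groupCohomology (Rep.leftRegular ℤ G) (n + 1) ≃+ ℤ) := by
  let Φ : (Rep.free ℤ G (Fin (m (n + 1))) ⟶ Rep.leftRegular ℤ G) →+ ℤ :=
    { toFun := fun f => φ (val f)
      map_zero' := by
        have : val (0 : Rep.free ℤ G (Fin (m (n + 1))) ⟶ Rep.leftRegular ℤ G) = 0 := rfl
        rw [this, map_zero]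
      map_add' := by
        intro f g
        have : val (f + g) = val f + val g := rfl
        rw [this, map_add] }
  have hΦ : ∀ f, Φ f = φ (val f) := fun _ => rfl
  have hs : ∀ r, ∃ f, Φ f = r := by
    intro r
    obtain ⟨w, hw⟩ := hφ r
    refine ⟨Rep.freeLift ℤ G (A := Rep.leftRegular ℤ G) w, ?_⟩
    rw [hΦ, val_lift, hw]
  have hk : ∀ f : Rep.free ℤ G (Fin (m (n + 1))) ⟶ Rep.leftRegular ℤ G, Φ f = 0 ↔
      ∃ g : Rep.free ℤ G (Fin (m n)) ⟶ Rep.leftRegular ℤ G, dd D n ≫ g = f := by
    intro f
    rw [hΦ]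
    refine (hker (val f)).trans ?_
    constructor
    · rintro ⟨v, hv⟩
      refine ⟨Rep.freeLift ℤ G (A := Rep.leftRegular ℤ G) v, ?_⟩
      apply val_inj (n := m (n + 1))
      refine (val_dd (n := n) _).trans ?_
      rw [val_lift (n := m n)]
      exact hv
    · rintro ⟨g, rfl⟩
      exact ⟨val (n := m n) g, (val_dd (n := n) g).symm⟩
  refine top_equiv (PP h) _ n (fun f => ?_) Φ hs (fun f => ?_)
  · exact Rep.free_ext ℤ G _ _ _ (fun i => Fin.elim0 (hn ▸ i))
  · have h2 : (PP h).complex.d (n + 1) n = dd D n := PP_d h n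
    rw [h2]
    exact hk f

end Pool.Agent.Helper74.Frame
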