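import Mathlib
import Pool.Agent.Helper74.PD3.Klein
import Pool.Agent.Helper74.PD3.Dual
import Pool.Agent.Helper74.PD.Frame

/-!
The Klein bottle subgroup is a Poincaré duality group of dimension two, and `Gam` is one of
dimension three, in terms of the general framework.
-/

namespace Pool.Agent.Helper74.PD3

open MonoidAlgebra CategoryTheory

theorem vec_sqK (n : ℕ) (u : Fin (mK (n + 2)) → ZK) :
    Matrix.vecMul (Matrix.vecMul u (EE (n + 1))) (EE n) = 0 := by
  match n, u with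
  | 0, u => exact (exactK1 _).1 ⟨u, rfl⟩
  | 1, u =>
    have : EE 2 = 0 := rfl
    rw [this, Matrix.vecMul_zero, Matrix.zero_vecMul]
  | n + 2, u =>
    have : EE (n + 2) = 0 := rfl
    rw [this, Matrix.vecMul_zero]

theorem augK_eq (u : ZK) : augK u = Frame.aug u := by
  induction u using MonoidAlgebra.induction_linear with
  | zero => rw [map_zero, map_zero]
  | add a b ha hb => rw [map_add, map_add, ha, hb]
  | single h r => rw [augK_single, Frame.aug_single]

theorem aug_eq (u : ZG) : aug u = Frame.aug u := by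
  induction u using MonoidAlgebra.induction_linear with
  | zero => rw [map_zero, map_zero]
  | add a b ha hb => rw [map_add, map_add, ha, hb]
  | single h r => rw [aug_single, Frame.aug_single]

theorem augE_K (u : Fin 1 → ZK) : Frame.augE (m := mK) (fun _ => 1) u = augK (u 0) := by
  unfold Frame.augE
  have : ∀ f : Fin (mK 0) → ℤ, ∑ i, f i = f (0 : Fin 1) := fun f => Fin.sum_univ_one f
  rw [this, mul_one, augK_eq]

theorem injK (x : Fin 1 → ZK) (h : Matrix.vecMul x E1 = 0) : x = 0 := by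
  rw [vec_E1] at h
  have h1 : x 0 * (-(κ xK - 1)) = 0 := congrFun h (1 : Fin 2)
  have h2 : x 0 * (κ xK - 1) = 0 := by
    rw [mul_neg, neg_eq_zero] at h1; exact h1
  funext j
  fin_cases j
  exact αK_inj _ h2

theorem isRes_K : Frame.IsRes (m := mK) EE (fun _ => 1) where
  sq := vec_sqK
  sq0 u := by
    refine (augE_K _).trans ?_
    exact (exactK0 _).1 ⟨u, rfl⟩
  ex0 u hu := by
    have : augK (u (0 : Fin 1)) = 0 := (augE_K u).symm.trans hu
    exact (exactK0 u).2 this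
  exs n u hu := by
    match n, u, hu with
    | 0, u, hu => exact (exactK1 u).2 hu
    | 1, u, hu =>
      refine ⟨0, ?_⟩
      rw [Matrix.zero_vecMul]
      exact (injK u hu).symm
    | n + 2, u, hu => exact ⟨0, funext fun j => j.elim0⟩
  surj r := ⟨fun _ => MonoidAlgebra.single 1 r, (augE_K _).trans (augK_single 1 r)⟩

/-- left version of the kernel lemma -/
theorem πK_κ_mul (u : ZK) (g : Kb) (f : ℤ → ℤ) (hf : ∀ h, qK (g * h) = f (qK h)) :
    πK (κ g * u) = (πK u).mapDomain f := by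
  rw [πK_apply, coeff_κ_mul, ← Finsupp.mapDomain_comp, πK_apply, ← Finsupp.mapDomain_comp]
  congr 1
  funext h
  exact hf h

theorem mulLeft_zpowK (g : Kb) (n : ℤ) (h : Kb) : ((Equiv.mulLeft g) ^ n) h = g ^ n * h := by
  induction n using Int.induction_on generalizing h with
  | zero => simp
  | succ i ih =>
    rw [zpow_add_one, Equiv.Perm.mul_apply, ih, zpow_add_one, Equiv.coe_mulLeft, mul_assoc]
  | pred i ih =>
    rw [zpow_sub_one, Equiv.Perm.mul_apply, ih, zpow_sub_one]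
    have : (Equiv.mulLeft g)⁻¹ h = g⁻¹ * h := by
      rw [Equiv.Perm.inv_eq_iff_eq]; simp
    rw [this, mul_assoc]

theorem αL_inj (w : ZK) (hw : (κ xK - 1) * w = 0) : w = 0 := by
  rw [sub_mul, one_mul, sub_eq_zero] at hw
  have h2 := congrArg MonoidAlgebra.coeff hw
  rw [coeff_κ_mul] at h2
  apply MonoidAlgebra.coeff_injective
  apply fixed_eq_zero (Equiv.mulLeft xK) _ _ h2
  intro h n hn
  rw [mulLeft_zpowK] at hn
  have h3 := congrArg (fun k : Kb => (k : Gam)) hn
  simp only [Subgroup.coe_mul, Subgroup.coe_zpow] at h3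
  have h4 : ((xK : Kb) : Gam) = Gam.x := rfl
  rw [h4, x_zpow] at h3
  have := congrArg Gam.a h3
  simpa [sg_zero] using this

theorem πL_α (w : ZK) : πK ((κ xK - 1) * w) = 0 := by
  rw [sub_mul, one_mul, map_sub, πK_κ_mul w xK id (by intro h; simp [qK, xK]),
      Finsupp.mapDomain_id, sub_self]

theorem πL_ker (u : ZK) (hu : πK u = 0) : ∃ w, u = (κ xK - 1) * w := by
  obtain ⟨v, hv⟩ := mem_range_of_mapDomain_eq_zero (Equiv.mulLeft xK) qK (by
    intro g g' hg
    refine ⟨(g'.1.a - g.1.a), ?_⟩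
    rw [mulLeft_zpowK]
    apply Subtype.ext
    rw [Subgroup.coe_mul, Subgroup.coe_zpow]
    have h4 : ((xK : Kb) : Gam) = Gam.x := rfl
    rw [h4, x_zpow]
    simp only [qK] at hg
    apply Gam.ext
    · simp [sg_zero]
    · have h1 : g.1.b = 0 := g.2
      have h2 : g'.1.b = 0 := g'.2
      simp [h1, h2]
    · simp [hg]) u.coeff hu
  refine ⟨MonoidAlgebra.ofCoeff v, ?_⟩
  apply MonoidAlgebra.coeff_injective
  rw [sub_mul, one_mul]
  have : (κ xK * MonoidAlgebra.ofCoeff v - MonoidAlgebra.ofCoeff v : ZK).coeff =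
    (κ xK * MonoidAlgebra.ofCoeff v).coeff - v := rfl
  rw [this, coeff_κ_mul, ← hv]

/-- the sign twist on `ℤ[ℤ]` -/
noncomputable def tw : (ℤ →₀ ℤ) →+ (ℤ →₀ ℤ) :=
  Finsupp.liftAddHom (fun n => (Finsupp.singleAddHom n).comp (AddMonoidHom.mulLeft (sg n)))

theorem tw_single (n r : ℤ) : tw (Finsupp.single n r) = Finsupp.single n (sg n * r) := by
  simp [tw]

theorem tw_tw (u : ℤ →₀ ℤ) : tw (tw u) = u := by
  induction u using Finsupp.induction_linear with
  | zero => rw [map_zero, map_zero]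
  | add a b ha hb => rw [map_add, map_add, ha, hb]
  | single n r => rw [tw_single, tw_single, ← mul_assoc, sg_mul_self, one_mul]

theorem tw_T₂ (u : ℤ →₀ ℤ) : tw (T₂ u) = -(T₂ (tw u)) := by
  induction u using Finsupp.induction_linear with
  | zero => simp
  | add a b ha hb => rw [map_add, map_add, ha, hb, map_add, map_add, neg_add]
  | single n r =>
    rw [T₂_apply, Finsupp.mapDomain_single, tw_single, tw_single, T₂_apply,
      Finsupp.mapDomain_single]
    have : sg (σ₃ n) = -sg n := by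
      simp [σ₃, sg_add, sg_one]
    rw [this, neg_mul, Finsupp.single_neg]

theorem tw_inj (w : ℤ →₀ ℤ) (h : T₂ w + w = 0) : w = 0 := by
  have h1 : T₂ (tw w) = tw w := by
    have := congrArg tw h
    rw [map_add, tw_T₂, map_zero] at this
    rw [neg_add_eq_zero] at this
    exact this
  rw [← tw_tw w, T₂_inj _ h1, map_zero]

theorem tw_ker (u : ℤ →₀ ℤ) (h : π₃ (tw u) = 0) : ∃ w, u = T₂ w + w := by
  obtain ⟨w, hw⟩ := π₃_ker _ h
  refine ⟨-(tw w), ?_⟩
  have := congrArg tw hw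
  rw [tw_tw, map_sub, tw_T₂] at this
  rw [this, map_neg]
  abel

theorem tw_im (w : ℤ →₀ ℤ) : π₃ (tw (T₂ w + w)) = 0 := by
  rw [map_add, tw_T₂]
  have := π₃_T₂ (tw w)
  rw [map_sub] at this
  rw [map_add, map_neg]
  linarith

theorem πL_T (u : ZK) : πK (κ (tK * xK⁻¹) * u) = T₂ (πK u) :=
  πK_κ_mul u (tK * xK⁻¹) _ (by intro h; simp [qK, tK, xK, σ₃, add_comm])

theorem mul_E0 (w : Fin 1 → ZK) : Matrix.mulVec E0 w =
    (![(κ xK - 1) * w 0, (κ tK - 1) * w 0] : Fin 2 → ZK) := by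
  funext j
  fin_cases j <;> simp [E0, Matrix.mulVec, dotProduct]

theorem mul_E1 (w : Fin 2 → ZK) : Matrix.mulVec E1 w =
    fun _ : Fin 1 => (-(κ (tK * xK⁻¹)) - 1) * w 0 + (-(κ xK - 1)) * w 1 := by
  funext j
  fin_cases j
  simp [E1, Matrix.mulVec, dotProduct]

theorem dualK0 (w : Fin 1 → ZK) (h : Matrix.mulVec E0 w = 0) : w = 0 := by
  rw [mul_E0] at h
  funext j
  fin_cases j
  exact αL_inj _ (congrFun h (0 : Fin 2))

theorem dualK1 (w : Fin 2 → ZK) (h : Matrix.mulVec E1 w = 0) :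
    ∃ v : Fin 1 → ZK, Matrix.mulVec E0 v = w := by
  rw [mul_E1] at h
  have h0 : (-(κ (tK * xK⁻¹)) - 1) * w 0 + (-(κ xK - 1)) * w 1 = 0 := congrFun h (0 : Fin 1)
  have h1 : T₂ (πK (w 0)) + πK (w 0) = 0 := by
    have h2 := congrArg πK h0
    have e1 : πK ((-(κ (tK * xK⁻¹)) - 1) * w 0) = -(T₂ (πK (w 0)) + πK (w 0)) := by
      rw [sub_mul, one_mul, neg_mul, map_sub, map_neg, πL_T]; abel
    have e2 : πK ((-(κ xK - 1)) * w 1) = 0 := by
      rw [neg_mul, map_neg, πL_α, neg_zero]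
    rw [map_add, e1, e2, add_zero, map_zero, neg_eq_zero] at h2
    exact h2
  obtain ⟨v, hv⟩ := πL_ker _ (tw_inj _ h1)
  refine ⟨![v], ?_⟩
  have h3 : κ xK * κ tK = κ (tK * xK⁻¹) := by
    rw [κ_mul]; exact congrArg κ (Subtype.ext Gam.x_mul_t)
  have h4 : κ (tK * xK⁻¹) * κ xK = κ tK := by
    rw [κ_mul]; exact congrArg κ (by group)
  have key : (κ xK - 1) * (w 1 - (κ tK - 1) * v) = 0 := by
    calc (κ xK - 1) * (w 1 - (κ tK - 1) * v)
        = (κ xK - 1) * w 1 - (κ xK * κ tK) * v + κ xK * v + κ tK * v - v := by noncomm_ring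
      _ = (κ xK - 1) * w 1 - κ (tK * xK⁻¹) * v + κ xK * v + (κ (tK * xK⁻¹) * κ xK) * v - v := by
          rw [h3, h4]
      _ = (κ xK - 1) * w 1 + (κ (tK * xK⁻¹) + 1) * ((κ xK - 1) * v) := by noncomm_ring
      _ = -((-(κ (tK * xK⁻¹)) - 1) * w 0 + (-(κ xK - 1)) * w 1) := by rw [← hv]; noncomm_ring
      _ = 0 := by rw [h0, neg_zero]
  have h5 := sub_eq_zero.mp (αL_inj _ key)
  rw [mul_E0]
  funext j
  fin_cases j
  · exact hv.symm
  · exact h5.symm

/-- the map giving the top cohomology of the Klein bottle group -/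
noncomputable def φK : (Fin (mK 2) → ZK) →+ ℤ :=
  ((π₃.comp tw).comp πK).comp (Pi.evalAddMonoidHom _ (0 : Fin 1))

theorem φK_surj : Function.Surjective φK := by
  intro r
  refine ⟨fun _ => MonoidAlgebra.single 1 r, ?_⟩
  change π₃ (tw (πK (MonoidAlgebra.single 1 r))) = r
  rw [πK_apply, MonoidAlgebra.coeff_single, Finsupp.mapDomain_single, tw_single, π₃_single]
  have : sg (qK 1) = 1 := by simp [qK, sg_zero]
  rw [this, one_mul]

theorem dualK2 (w : Fin 1 → ZK) : φK w = 0 ↔ ∃ v : Fin 2 → ZK, Matrix.mulVec E1 v = w := by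
  have h0 : φK w = π₃ (tw (πK (w 0))) := rfl
  rw [h0]
  constructor
  · intro h
    obtain ⟨u, hu⟩ := tw_ker _ h
    obtain ⟨v, rfl⟩ := πK_surj u
    obtain ⟨z, hz⟩ := πL_ker (w 0 - (κ (tK * xK⁻¹) * v + v)) (by
      rw [map_sub, map_add, πL_T, hu, sub_self])
    refine ⟨![-v, -z], ?_⟩
    rw [mul_E1]
    funext j
    fin_cases j
    change (-(κ (tK * xK⁻¹)) - 1) * -v + (-(κ xK - 1)) * -z = w 0
    have : w 0 = (κ xK - 1) * z + (κ (tK * xK⁻¹) * v + v) := by rw [← hz]; abel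
    rw [this]
    noncomm_ring
  · rintro ⟨v, rfl⟩
    rw [mul_E1]
    have e1 : πK ((-(κ (tK * xK⁻¹)) - 1) * v 0 + (-(κ xK - 1)) * v 1) =
        T₂ (πK (-(v 0))) + πK (-(v 0)) := by
      rw [map_add, sub_mul, one_mul, neg_mul, map_sub, map_neg, πL_T, neg_mul, map_neg, πL_α,
        map_neg, map_neg]
      abel
    rw [e1]
    exact tw_im _

theorem K_H0 : Subsingleton (groupCohomology (Rep.leftRegular ℤ Kb) 0) :=
  Frame.coh_zero isRes_K dualK0

theorem K_H1 : Subsingleton (groupCohomology (Rep.leftRegular ℤ Kb) 1) :=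
  Frame.coh_succ isRes_K 0 dualK1

theorem K_H2 : Nonempty (groupCohomology (Rep.leftRegular ℤ Kb) 2 ≃+ ℤ) :=
  Frame.coh_top isRes_K 1 rfl φK φK_surj dualK2

theorem K_H (n : ℕ) (M : Rep ℤ Kb) : Subsingleton (groupCohomology M (n + 3)) :=
  Frame.coh_vanish isRes_K (n + 2) rfl M

theorem G_H (n : ℕ) (M : Rep ℤ Gam) : Subsingleton (groupCohomology M (n + 4)) := by
  refine subsingleton_succ PP M (n + 3) fun f _ => ⟨0, ?_⟩
  have : f = 0 := Rep.free_ext ℤ Gam _ _ _ (fun i => Fin.elim0 i)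
  rw [this]
  exact Limits.comp_zero

end Pool.Agent.Helper74.PD3
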